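import Pool.Agent.Helper89.A8.Stmts

/-!
# Block A8-M07 (helper68): in a simple module some element of order 4 has a nonzero norm

For each of the five admissible types a translate `f w` of the Hecke eigenvector `w` is the norm
`w + h w + h² w + h³ w` of an element `h` of order 4 (three pencil relations).
-/

set_option autoImplicit false

namespace Pool.Agent.A8

open Matrix

/-- the generators of the parabolic subgroups -/
def m07gens : Fin 6 → Gam := ![gt, x1, gg, gr, gq, gs]

/-- the generator `k` fixes vectors of type `J` -/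
def m07ok (J : Fin 3 → Bool) (k : Fin 6) : Bool :=
  ![true, true, true, !(J 0), !(J 1), !(J 2)] k

section
variable {X : Type} [AddCommGroup X] [Module RG X] {J : Fin 3 → Bool} {w : X}

theorem m07_gen (hw : HV J w) (k : Fin 6) (hk : m07ok J k = true) : act (m07gens k) w = w := by
  fin_cases k
  · exact hw.fix 0
  · exact hw.fix 1
  · exact hw.fix 2
  · refine hw.eig1 0 ?_
    simpa [m07ok] using hk
  · refine hw.eig1 1 ?_
    simpa [m07ok] using hk
  · refine hw.eig1 2 ?_
    simpa [m07ok] using hk

theorem m07_fix (hw : HV J w) (l : List (Fin 6)) (hl : ∀ k ∈ l, m07ok J k = true) :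
    act (l.map m07gens).prod w = w := by
  induction l with
  | nil => simp
  | cons a l ih =>
    rw [List.map_cons, List.prod_cons, act_mul, ih fun k hk => hl k (List.mem_cons_of_mem _ hk)]
    exact m07_gen hw a (hl a List.mem_cons_self)

theorem m07_actw (hw : HV J w) (l : List (Fin 6)) (hl : ∀ k ∈ l, m07ok J k = true) {u v : Gam}
    (h : u = v * (l.map m07gens).prod) : act u w = act v w := by
  rw [h, act_mul, m07_fix hw l hl]

theorem m07_rel (hw : HV J w) (i : Fin 3) (hi : J i = true) (g : Gam) :
    act g w + act (g * g3 i) w + act (g * g3 i ^ 2) w = 0 := by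
  rw [act_mul, act_mul, ← act_add, ← act_add, hw.eig0 i hi, act_zero]

theorem m07_self (x : X) : x + x = 0 := add_self x

end

/-- the element of order 4 for the type (1, 0, 0) -/

def j100h : Gam := mkG !![1,0,0,0; 1,0,0,1; 0,1,0,1; 0,0,1,1] !![1,0,0,0; 1,1,1,0; 1,1,0,1; 1,1,0,0]
  (by decide) (by decide)

/-- the translate for the type (1, 0, 0) -/

def j100f : Gam := mkG !![0,1,0,0; 1,1,0,0; 0,0,0,1; 1,1,1,1] !![1,1,0,0; 1,0,0,0; 0,1,1,1; 0,0,1,0]
  (by decide) (by decide)

/-- a translating element for the type (1, 0, 0) -/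

def j100g0 : Gam := mkG !![1,0,0,0; 0,1,0,0; 0,0,1,0; 0,0,0,1] !![1,0,0,0; 0,1,0,0; 0,0,1,0; 0,0,0,1]
  (by decide) (by decide)

/-- a translating element for the type (1, 0, 0) -/

def j100g1 : Gam := mkG !![0,1,0,0; 1,1,0,0; 0,1,1,0; 0,0,0,1] !![1,1,0,0; 1,0,0,0; 1,0,1,0; 0,0,0,1]
  (by decide) (by decide)

/-- a translating element for the type (1, 0, 0) -/

def j100g2 : Gam := mkG !![1,1,1,0; 0,1,1,0; 1,1,0,0; 0,1,1,1] !![1,1,0,0; 1,1,1,0; 1,0,1,0; 0,1,0,1]
  (by decide) (by decide)

theorem nh_j100 {X : Type} [AddCommGroup X] [Module RG X] (w : X)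
    (hw : HV ![true, false, false] w) : ∃ h : Gam, orderOf h = 4 ∧ nrm4 h w ≠ 0 := by
  refine ⟨j100h, ?_, fun hN => hw.ne ?_⟩
  · refine orderOf_eq_prime_pow (p := 2) (n := 1) ?_ ?_
    · intro hc
      exact absurd (congrArg Units.val hc) (by decide +kernel)
    · apply Units.ext
      decide +kernel
  · have r0 := m07_rel hw 0 rfl j100g0
    have r1 := m07_rel hw 0 rfl j100g1
    have r2 := m07_rel hw 0 rfl j100g2
    have e4 : act j100g0 w = act 1 w := by
      refine m07_actw hw [] (by decide) ?_
      apply Units.ext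
      decide +kernel
    have e6 : act (j100g0 * g3 0 ^ 2) w = act j100h w := by
      refine m07_actw hw [5, 5, 4, 4, 0] (by decide) ?_
      apply Units.ext
      decide +kernel
    have e7 : act j100g1 w = act (j100g0 * g3 0) w := by
      refine m07_actw hw [1, 4] (by decide) ?_
      apply Units.ext
      decide +kernel
    have e8 : act (j100g1 * g3 0) w = act (j100h ^ 2) w := by
      refine m07_actw hw [4, 5, 4, 0, 5] (by decide) ?_
      apply Units.ext
      decide +kernel
    have e10 : act j100g2 w = act (j100g1 * g3 0 ^ 2) w := by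
      refine m07_actw hw [0, 4, 1, 2, 5, 4] (by decide) ?_
      apply Units.ext
      decide +kernel
    have e11 : act (j100g2 * g3 0) w = act (j100h ^ 3) w := by
      refine m07_actw hw [1, 5, 1, 0, 4] (by decide) ?_
      apply Units.ext
      decide +kernel
    have e13 : act j100f w = act (j100g2 * g3 0 ^ 2) w := by
      refine m07_actw hw [0, 4, 5] (by decide) ?_
      apply Units.ext
      decide +kernel
    have e0 : act (1 : Gam) w = w := act_one w
    unfold nrm4 at hN
    have hf : act j100f w = 0 := by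
      rw [e4] at r0
      rw [e6] at r0
      rw [e7] at r1
      rw [e8] at r1
      rw [e10] at r2
      rw [e11] at r2
      rw [e13]
      try rw [e0] at r0
      try rw [e0] at r1
      try rw [e0] at r2
      try rw [e0] at hN
      try rw [e0]
      linear_combination (norm := abel) hN + r0 + r1 + r2 - m07_self w - m07_self (act j100h w) - m07_self (act (j100h ^ 2) w) - m07_self (act (j100h ^ 3) w) - m07_self (act (j100g0 * g3 0) w) - m07_self (act (j100g1 * g3 0 ^ 2) w)
    exact act_inj j100f (by rw [hf, act_zero])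

/-- the element of order 4 for the type (0, 1, 0) -/

def j010h : Gam := mkG !![1,0,0,0; 1,0,0,1; 0,1,0,1; 0,0,1,1] !![1,0,0,0; 1,1,1,0; 1,1,0,1; 1,1,0,0]
  (by decide) (by decide)

/-- the translate for the type (0, 1, 0) -/

def j010f : Gam := mkG !![0,0,1,0; 1,0,1,0; 1,1,0,0; 0,1,1,1] !![1,1,0,0; 1,1,1,0; 1,0,0,0; 0,1,1,1]
  (by decide) (by decide)

/-- a translating element for the type (0, 1, 0) -/

def j010g0 : Gam := mkG !![1,0,0,0; 1,1,0,0; 0,0,1,0; 0,0,0,1] !![1,0,0,0; 1,1,0,0; 0,0,1,0; 0,0,0,1]
  (by decide) (by decide)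

/-- a translating element for the type (0, 1, 0) -/

def j010g1 : Gam := mkG !![1,0,0,1; 1,1,0,1; 1,1,0,0; 1,1,1,1] !![1,1,1,0; 1,1,0,0; 0,1,0,1; 0,1,1,0]
  (by decide) (by decide)

/-- a translating element for the type (0, 1, 0) -/

def j010g2 : Gam := mkG !![0,1,0,0; 1,0,0,0; 1,1,1,0; 0,0,1,1] !![0,1,0,0; 1,0,0,0; 1,1,1,0; 1,1,1,1]
  (by decide) (by decide)

theorem nh_j010 {X : Type} [AddCommGroup X] [Module RG X] (w : X)
    (hw : HV ![false, true, false] w) : ∃ h : Gam, orderOf h = 4 ∧ nrm4 h w ≠ 0 := by
  refine ⟨j010h, ?_, fun hN => hw.ne ?_⟩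
  · refine orderOf_eq_prime_pow (p := 2) (n := 1) ?_ ?_
    · intro hc
      exact absurd (congrArg Units.val hc) (by decide +kernel)
    · apply Units.ext
      decide +kernel
  · have r0 := m07_rel hw 1 rfl j010g0
    have r1 := m07_rel hw 1 rfl j010g1
    have r2 := m07_rel hw 1 rfl j010g2
    have e4 : act j010g0 w = act 1 w := by
      refine m07_actw hw [0, 3] (by decide) ?_
      apply Units.ext
      decide +kernel
    have e5 : act (j010g0 * g3 1) w = act j010h w := by
      refine m07_actw hw [5, 5] (by decide) ?_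
      apply Units.ext
      decide +kernel
    have e7 : act j010g1 w = act (j010h ^ 3) w := by
      refine m07_actw hw [0, 2, 1, 0, 1, 5, 1] (by decide) ?_
      apply Units.ext
      decide +kernel
    have e8 : act (j010g1 * g3 1) w = act (j010h ^ 2) w := by
      refine m07_actw hw [1, 0, 1, 2, 1, 3] (by decide) ?_
      apply Units.ext
      decide +kernel
    have e10 : act j010g2 w = act (j010g0 * g3 1 ^ 2) w := by
      refine m07_actw hw [1, 2, 3, 5] (by decide) ?_
      apply Units.ext
      decide +kernel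
    have e12 : act (j010g2 * g3 1 ^ 2) w = act (j010g1 * g3 1 ^ 2) w := by
      refine m07_actw hw [5, 1, 3, 5] (by decide) ?_
      apply Units.ext
      decide +kernel
    have e13 : act j010f w = act (j010g2 * g3 1) w := by
      refine m07_actw hw [0, 1, 0, 2, 5] (by decide) ?_
      apply Units.ext
      decide +kernel
    have e0 : act (1 : Gam) w = w := act_one w
    unfold nrm4 at hN
    have hf : act j010f w = 0 := by
      rw [e4] at r0
      rw [e5] at r0
      rw [e7] at r1
      rw [e8] at r1
      rw [e10] at r2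
      rw [e12] at r2
      rw [e13]
      try rw [e0] at r0
      try rw [e0] at r1
      try rw [e0] at r2
      try rw [e0] at hN
      try rw [e0]
      linear_combination (norm := abel) hN + r0 + r1 + r2 - m07_self w - m07_self (act j010h w) - m07_self (act (j010h ^ 2) w) - m07_self (act (j010h ^ 3) w) - m07_self (act (j010g0 * g3 1 ^ 2) w) - m07_self (act (j010g1 * g3 1 ^ 2) w)
    exact act_inj j010f (by rw [hf, act_zero])

/-- the element of order 4 for the type (0, 0, 1) -/

def j001h : Gam := mkG !![1,0,0,0; 1,0,0,1; 0,1,0,1; 0,0,1,1] !![1,0,0,0; 1,1,1,0; 1,1,0,1; 1,1,0,0]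
  (by decide) (by decide)

/-- the translate for the type (0, 0, 1) -/

def j001f : Gam := mkG !![0,0,0,1; 1,0,0,1; 0,1,0,1; 0,0,1,1] !![1,1,0,0; 1,0,1,0; 1,0,0,1; 1,0,0,0]
  (by decide) (by decide)

/-- a translating element for the type (0, 0, 1) -/

def j001g0 : Gam := mkG !![1,0,0,0; 0,1,0,0; 0,0,1,0; 0,0,0,1] !![1,0,0,0; 0,1,0,0; 0,0,1,0; 0,0,0,1]
  (by decide) (by decide)

/-- a translating element for the type (0, 0, 1) -/

def j001g1 : Gam := mkG !![1,0,0,0; 0,0,1,0; 0,0,0,1; 0,1,1,1] !![1,0,0,0; 0,1,1,1; 0,1,0,0; 0,0,1,0]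
  (by decide) (by decide)

/-- a translating element for the type (0, 0, 1) -/

def j001g2 : Gam := mkG !![0,0,1,0; 0,0,0,1; 1,0,1,1; 0,1,1,1] !![1,1,1,0; 1,1,0,1; 1,0,0,0; 0,1,0,0]
  (by decide) (by decide)

theorem nh_j001 {X : Type} [AddCommGroup X] [Module RG X] (w : X)
    (hw : HV ![false, false, true] w) : ∃ h : Gam, orderOf h = 4 ∧ nrm4 h w ≠ 0 := by
  refine ⟨j001h, ?_, fun hN => hw.ne ?_⟩
  · refine orderOf_eq_prime_pow (p := 2) (n := 1) ?_ ?_
    · intro hc
      exact absurd (congrArg Units.val hc) (by decide +kernel)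
    · apply Units.ext
      decide +kernel
  · have r0 := m07_rel hw 2 rfl j001g0
    have r1 := m07_rel hw 2 rfl j001g1
    have r2 := m07_rel hw 2 rfl j001g2
    have e4 : act j001g0 w = act 1 w := by
      refine m07_actw hw [] (by decide) ?_
      apply Units.ext
      decide +kernel
    have e6 : act (j001g0 * g3 2 ^ 2) w = act (j001h ^ 3) w := by
      refine m07_actw hw [0, 3, 4] (by decide) ?_
      apply Units.ext
      decide +kernel
    have e7 : act j001g1 w = act (j001g0 * g3 2) w := by
      refine m07_actw hw [4] (by decide) ?_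
      apply Units.ext
      decide +kernel
    have e9 : act (j001g1 * g3 2 ^ 2) w = act (j001h ^ 2) w := by
      refine m07_actw hw [0, 1, 4, 3, 4, 2, 4] (by decide) ?_
      apply Units.ext
      decide +kernel
    have e10 : act j001g2 w = act (j001g1 * g3 2) w := by
      refine m07_actw hw [4, 4, 2, 3, 4] (by decide) ?_
      apply Units.ext
      decide +kernel
    have e12 : act (j001g2 * g3 2 ^ 2) w = act j001h w := by
      refine m07_actw hw [3, 0, 4, 1, 2] (by decide) ?_
      apply Units.ext
      decide +kernel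
    have e13 : act j001f w = act (j001g2 * g3 2) w := by
      refine m07_actw hw [0, 4, 4, 2, 3, 0, 1] (by decide) ?_
      apply Units.ext
      decide +kernel
    have e0 : act (1 : Gam) w = w := act_one w
    unfold nrm4 at hN
    have hf : act j001f w = 0 := by
      rw [e4] at r0
      rw [e6] at r0
      rw [e7] at r1
      rw [e9] at r1
      rw [e10] at r2
      rw [e12] at r2
      rw [e13]
      try rw [e0] at r0
      try rw [e0] at r1
      try rw [e0] at r2
      try rw [e0] at hN
      try rw [e0]
      linear_combination (norm := abel) hN + r0 + r1 + r2 - m07_self w - m07_self (act j001h w) - m07_self (act (j001h ^ 2) w) - m07_self (act (j001h ^ 3) w) - m07_self (act (j001g0 * g3 2) w) - m07_self (act (j001g1 * g3 2) w)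
    exact act_inj j001f (by rw [hf, act_zero])

/-- the element of order 4 for the type (1, 1, 0) -/

def j110h : Gam := mkG !![0,1,0,0; 0,1,1,0; 1,1,0,0; 0,0,0,1] !![1,0,1,0; 1,0,0,0; 1,1,0,0; 0,0,0,1]
  (by decide) (by decide)

/-- the translate for the type (1, 1, 0) -/

def j110f : Gam := mkG !![1,0,0,0; 1,1,0,0; 0,1,1,0; 0,0,0,1] !![1,0,0,0; 1,1,0,0; 1,1,1,0; 0,0,0,1]
  (by decide) (by decide)

/-- a translating element for the type (1, 1, 0) -/

def j110g0 : Gam := mkG !![1,0,0,0; 0,1,0,0; 0,0,1,0; 0,0,0,1] !![1,0,0,0; 0,1,0,0; 0,0,1,0; 0,0,0,1]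
  (by decide) (by decide)

/-- a translating element for the type (1, 1, 0) -/

def j110g1 : Gam := mkG !![1,0,0,0; 1,0,1,0; 0,1,1,0; 0,0,0,1] !![1,0,0,0; 1,1,1,0; 1,1,0,0; 0,0,0,1]
  (by decide) (by decide)

/-- a translating element for the type (1, 1, 0) -/

def j110g2 : Gam := mkG !![1,0,0,0; 1,1,0,0; 0,0,1,0; 0,0,0,1] !![1,0,0,0; 1,1,0,0; 0,0,1,0; 0,0,0,1]
  (by decide) (by decide)

theorem nh_j110 {X : Type} [AddCommGroup X] [Module RG X] (w : X)
    (hw : HV ![true, true, false] w) : ∃ h : Gam, orderOf h = 4 ∧ nrm4 h w ≠ 0 := by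
  refine ⟨j110h, ?_, fun hN => hw.ne ?_⟩
  · refine orderOf_eq_prime_pow (p := 2) (n := 1) ?_ ?_
    · intro hc
      exact absurd (congrArg Units.val hc) (by decide +kernel)
    · apply Units.ext
      decide +kernel
  · have r0 := m07_rel hw 0 rfl j110g0
    have r1 := m07_rel hw 0 rfl j110g1
    have r2 := m07_rel hw 1 rfl j110g2
    have e4 : act j110g0 w = act 1 w := by
      refine m07_actw hw [] (by decide) ?_
      apply Units.ext
      decide +kernel
    have e5 : act (j110g0 * g3 0) w = act (j110h ^ 2) w := by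
      refine m07_actw hw [0, 1] (by decide) ?_
      apply Units.ext
      decide +kernel
    have e8 : act (j110g1 * g3 0) w = act j110h w := by
      refine m07_actw hw [0, 1, 0, 1] (by decide) ?_
      apply Units.ext
      decide +kernel
    have e9 : act (j110g1 * g3 0 ^ 2) w = act (j110h ^ 3) w := by
      refine m07_actw hw [1, 0, 1] (by decide) ?_
      apply Units.ext
      decide +kernel
    have e10 : act j110g2 w = act (j110g0 * g3 0 ^ 2) w := by
      refine m07_actw hw [0] (by decide) ?_
      apply Units.ext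
      decide +kernel
    have e11 : act (j110g2 * g3 1) w = act j110g1 w := by
      refine m07_actw hw [] (by decide) ?_
      apply Units.ext
      decide +kernel
    have e13 : act j110f w = act (j110g2 * g3 1 ^ 2) w := by
      refine m07_actw hw [1] (by decide) ?_
      apply Units.ext
      decide +kernel
    have e0 : act (1 : Gam) w = w := act_one w
    unfold nrm4 at hN
    have hf : act j110f w = 0 := by
      rw [e4] at r0
      rw [e5] at r0
      rw [e8] at r1
      rw [e9] at r1
      rw [e10] at r2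
      rw [e11] at r2
      rw [e13]
      try rw [e0] at r0
      try rw [e0] at r1
      try rw [e0] at r2
      try rw [e0] at hN
      try rw [e0]
      linear_combination (norm := abel) hN + r0 + r1 + r2 - m07_self w - m07_self (act j110h w) - m07_self (act (j110h ^ 2) w) - m07_self (act (j110h ^ 3) w) - m07_self (act (j110g0 * g3 0 ^ 2) w) - m07_self (act j110g1 w)
    exact act_inj j110f (by rw [hf, act_zero])

/-- the element of order 4 for the type (0, 1, 1) -/

def j011h : Gam := mkG !![1,0,0,0; 0,0,1,0; 0,0,1,1; 0,1,1,0] !![1,0,0,0; 0,1,0,1; 0,1,0,0; 0,1,1,0]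
  (by decide) (by decide)

/-- the translate for the type (0, 1, 1) -/

def j011f : Gam := mkG !![1,0,0,0; 0,1,0,0; 0,1,1,0; 0,0,1,1] !![1,0,0,0; 0,1,0,0; 0,1,1,0; 0,1,1,1]
  (by decide) (by decide)

/-- a translating element for the type (0, 1, 1) -/

def j011g0 : Gam := mkG !![1,0,0,0; 0,1,0,0; 0,0,1,0; 0,0,0,1] !![1,0,0,0; 0,1,0,0; 0,0,1,0; 0,0,0,1]
  (by decide) (by decide)

/-- a translating element for the type (0, 1, 1) -/

def j011g1 : Gam := mkG !![1,0,0,0; 0,1,0,0; 0,1,0,1; 0,0,1,1] !![1,0,0,0; 0,1,0,0; 0,1,1,1; 0,1,1,0]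
  (by decide) (by decide)

/-- a translating element for the type (0, 1, 1) -/

def j011g2 : Gam := mkG !![1,0,0,0; 0,1,0,0; 0,1,1,0; 0,0,0,1] !![1,0,0,0; 0,1,0,0; 0,1,1,0; 0,0,0,1]
  (by decide) (by decide)

theorem nh_j011 {X : Type} [AddCommGroup X] [Module RG X] (w : X)
    (hw : HV ![false, true, true] w) : ∃ h : Gam, orderOf h = 4 ∧ nrm4 h w ≠ 0 := by
  refine ⟨j011h, ?_, fun hN => hw.ne ?_⟩
  · refine orderOf_eq_prime_pow (p := 2) (n := 1) ?_ ?_
    · intro hc
      exact absurd (congrArg Units.val hc) (by decide +kernel)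
    · apply Units.ext
      decide +kernel
  · have r0 := m07_rel hw 1 rfl j011g0
    have r1 := m07_rel hw 1 rfl j011g1
    have r2 := m07_rel hw 2 rfl j011g2
    have e4 : act j011g0 w = act 1 w := by
      refine m07_actw hw [] (by decide) ?_
      apply Units.ext
      decide +kernel
    have e5 : act (j011g0 * g3 1) w = act (j011h ^ 2) w := by
      refine m07_actw hw [1, 2] (by decide) ?_
      apply Units.ext
      decide +kernel
    have e8 : act (j011g1 * g3 1) w = act j011h w := by
      refine m07_actw hw [1, 2, 1, 2] (by decide) ?_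
      apply Units.ext
      decide +kernel
    have e9 : act (j011g1 * g3 1 ^ 2) w = act (j011h ^ 3) w := by
      refine m07_actw hw [2, 1, 2] (by decide) ?_
      apply Units.ext
      decide +kernel
    have e10 : act j011g2 w = act (j011g0 * g3 1 ^ 2) w := by
      refine m07_actw hw [1] (by decide) ?_
      apply Units.ext
      decide +kernel
    have e11 : act (j011g2 * g3 2) w = act j011g1 w := by
      refine m07_actw hw [] (by decide) ?_
      apply Units.ext
      decide +kernel
    have e13 : act j011f w = act (j011g2 * g3 2 ^ 2) w := by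
      refine m07_actw hw [2] (by decide) ?_
      apply Units.ext
      decide +kernel
    have e0 : act (1 : Gam) w = w := act_one w
    unfold nrm4 at hN
    have hf : act j011f w = 0 := by
      rw [e4] at r0
      rw [e5] at r0
      rw [e8] at r1
      rw [e9] at r1
      rw [e10] at r2
      rw [e11] at r2
      rw [e13]
      try rw [e0] at r0
      try rw [e0] at r1
      try rw [e0] at r2
      try rw [e0] at hN
      try rw [e0]
      linear_combination (norm := abel) hN + r0 + r1 + r2 - m07_self w - m07_self (act j011h w) - m07_self (act (j011h ^ 2) w) - m07_self (act (j011h ^ 3) w) - m07_self (act (j011g0 * g3 1 ^ 2) w) - m07_self (act j011g1 w)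
    exact act_inj j011f (by rw [hf, act_zero])

theorem bNH (h1 : S_HECKE) (h2 : S_HV000) (h3 : S_HV101) (h4 : S_HV111) : S_NH := by
  intro X _ _ _ hS hF
  have : Nontrivial X := IsSimpleModule.nontrivial RG X
  obtain ⟨J, w, hw⟩ := h1 X
  have hJ : J = ![J 0, J 1, J 2] := by
    funext i
    fin_cases i <;> rfl
  rw [hJ] at hw
  have key : ∃ h : Gam, orderOf h = 4 ∧ nrm4 h w ≠ 0 := by
    generalize J 0 = a at hw
    generalize J 1 = b at hw
    generalize J 2 = c at hw
    cases a <;> cases b <;> cases c
    · exact absurd hw (h2 X hF w)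
    · exact nh_j001 w hw
    · exact nh_j010 w hw
    · exact nh_j011 w hw
    · exact nh_j100 w hw
    · exact absurd hw (h3 X hF w)
    · exact nh_j110 w hw
    · exact absurd hw (h4 X hF w)
  obtain ⟨h, ho, hn⟩ := key
  exact ⟨h, ho, w, hn⟩

end Pool.Agent.A8
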