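import Pool.Agent.Helper26.A8.M06
import Pool.Agent.Helper89.A8.MTools
import Pool.Agent.Helper89.A8.Stmts

/-!
# Block A8-M15 (helper68)
-/

set_option autoImplicit false

namespace Pool.Agent.A8

open Matrix

namespace M15

/-- the generators of the stabiliser of `e₀` -/
def st : Fin 6 → Bool := ![true, true, true, false, true, true]

/-- `gg gh gg⁻¹` -/
def ghc : Gam := gg * gh * gg⁻¹

theorem act_e0 (g : Gam) (h : g.1 *ᵥ (![1, 0, 0, 0] : V4) = ![1, 0, 0, 0]) :
    act g vE0 = vE0 := by
  rw [act_MV]
  exact h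

section lift
variable {X : Type} [AddCommGroup X] [Module RG X]

theorem actw {x : X} (hx : ∀ k, st k = true → act (M06.gen k) x = x) (l : List (Fin 6))
    (hl : l.all st = true) {u v : Gam} (h : u = v * M06.word l) : act u x = act v x := by
  rw [h, act_mul, M06.fixw hx l hl]

theorem fix_pow {g : Gam} {x : X} (h : act g x = x) (n : ℕ) : act (g ^ n) x = x := by
  induction n with
  | zero => simp
  | succ k ih => rw [pow_succ, act_mul, h, ih]

theorem fix_inv {g : Gam} {x : X} (h : act g x = x) : act g⁻¹ x = x := by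
  have := act_inv_act g x
  rwa [h] at this

theorem mkQ_act (N : Submodule RG X) (g : Gam) (x : X) : N.mkQ (act g x) = act g (N.mkQ x) :=
  map_act N.mkQ g x

/-- a vector over `e₀`, whose class is fixed by the stabiliser of `e₀`, lifts to a vector fixed by
the stabiliser of `e₀` -/
theorem exists_lift (hC : S_COCV) (i : MV →ₗ[RG] X) (hi : Function.Injective i) (x0 : X)
    (h0 : ∀ g : Gam, act g vE0 = vE0 →
      act g ((LinearMap.range i).mkQ x0) = (LinearMap.range i).mkQ x0) :
    ∃ x : X, (LinearMap.range i).mkQ x = (LinearMap.range i).mkQ x0 ∧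
      ∀ k, st k = true → act (M06.gen k) x = x := by
  set π := (LinearMap.range i).mkQ with hπ
  have hgh : act gh vE0 = vE0 := act_e0 gh (by decide +kernel)
  have hgs : act gs vE0 = vE0 := act_e0 gs (by decide +kernel)
  have hgg : act gg vE0 = vE0 := act_e0 gg (by decide +kernel)
  have hgs3 : gs ^ 3 = 1 := by
    apply Units.ext
    decide +kernel
  -- average over `gh`, then over `gs`
  set xa : X := orb gh 7 x0 with hxa
  have hxa1 : π xa = π x0 := by
    rw [hxa, map_orb]
    exact orb_of_fix (by decide) (h0 gh hgh)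
  have hxa2 : act gh xa = xa := act_orb gh_7 x0
  set x : X := orb gs 3 xa with hx
  have hx1 : π x = π x0 := by
    rw [hx, map_orb, hxa1]
    exact orb_of_fix (by decide) (h0 gs hgs)
  have hx2 : act gs x = x := act_orb hgs3 xa
  have hx3 : act gh x = x := by
    have e1 : gh * gs = gs * gh ^ 4 := by
      apply Units.ext
      decide +kernel
    have e2 : gh * gs ^ 2 = gs ^ 2 * gh ^ 2 := by
      apply Units.ext
      decide +kernel
    have e : x = xa + act gs xa + act (gs ^ 2) xa := by
      rw [hx]
      simp [orb, Finset.sum_range_succ]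
    rw [e, act_add, act_add, hxa2, ← act_mul, ← act_mul, e1, e2, act_mul, act_mul,
      fix_pow hxa2, fix_pow hxa2]
  have hstab : ∀ g : Gam, act g vE0 = vE0 → ∃ m, i m = act g x + x := by
    intro g hg
    have h1 : act g x + x ∈ LinearMap.range i := by
      rw [← Submodule.ker_mkQ (LinearMap.range i), LinearMap.mem_ker]
      change π (act g x + x) = 0
      rw [map_add, hπ, mkQ_act, ← hπ, hx1, h0 g hg]
      exact add_self _
    obtain ⟨m, hm⟩ := h1
    exact ⟨m, hm⟩
  -- the transvections with centre `e₀`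
  have hTT0 : ∀ t ∈ TT, act t vE0 = vE0 := by
    intro t ht
    rw [act_MV]
    funext j
    have e : (t.1 *ᵥ (vE0 : Fin 4 → ZMod 2)) j = t.1 j 0 := by
      simp [Matrix.mulVec, dotProduct, Fin.sum_univ_four, vE0]
    rw [e]
    refine Fin.cases ?_ (fun k => ?_) j
    · rw [ht.1]; rfl
    · rw [ht.2 k 0]
      fin_cases k <;> rfl
  classical
  let l : Gam → MV := fun g => if h : ∃ m, i m = act g x + x then h.choose else 0
  have hl : ∀ g : Gam, act g vE0 = vE0 → i (l g) = act g x + x := by
    intro g hg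
    have h := hstab g hg
    have e : l g = h.choose := dif_pos h
    rw [e]
    exact h.choose_spec
  have hmul0 : ∀ g h : Gam, act g vE0 = vE0 → act h vE0 = vE0 → act (g * h) vE0 = vE0 := by
    intro g h hg hh
    rw [act_mul, hh, hg]
  have hinv0 : ∀ g : Gam, act g vE0 = vE0 → act g⁻¹ vE0 = vE0 := fun g hg => fix_inv hg
  have hcan : ∀ a b c : X, a + b + (c + a) = b + c := by
    intro a b c
    have := add_self a
    calc a + b + (c + a) = b + c + (a + a) := by abel
      _ = b + c := by rw [this, add_zero]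
  have hTT : ∀ t ∈ TT, act t x = x := by
    intro t ht
    have h1 := hC l ?_ ?_ ?_ t ht
    · have h2 := hl t (hTT0 t ht)
      rw [h1, map_zero] at h2
      have h3 := eq_neg_of_add_eq_zero_left h2.symm
      rwa [neg_eq] at h3
    · intro t ht t' ht'
      apply hi
      rw [map_add, map_act, hl _ (hmul0 t t' (hTT0 t ht) (hTT0 t' ht')), hl t (hTT0 t ht),
        hl t' (hTT0 t' ht'), act_add, act_mul]
      have := hcan (act t x) x (act t (act t' x))
      rw [this, add_comm]
    · intro t ht
      apply hi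
      rw [map_act, hl t (hTT0 t ht),
        hl _ (hmul0 _ _ (hmul0 _ _ hgh (hTT0 t ht)) (hinv0 _ hgh)), act_add, hx3, act_mul,
        act_mul, fix_inv hx3]
    · intro t ht
      apply hi
      rw [map_act, hl t (hTT0 t ht),
        hl _ (hmul0 _ _ (hmul0 _ _ hgs (hTT0 t ht)) (hinv0 _ hgs)), act_add, hx2, act_mul,
        act_mul, fix_inv hx2]
  have hgtT : gt ∈ TT := by
    constructor
    · rfl
    · decide +kernel
  have hgt : act gt x = x := hTT gt hgtT
  -- the element `gg`
  obtain ⟨m, hm⟩ := hstab gg hgg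
  have hm1 : act gs m = m := by
    apply hi
    have e1 : gs * gg = gg * gs ^ 2 := by
      apply Units.ext
      decide +kernel
    rw [map_act, hm, act_add, hx2, ← act_mul, e1, act_mul, fix_pow hx2]
  have hm2 : act gt m = m := by
    apply hi
    have e1 : gt * gg = gg * gt := by
      apply Units.ext
      decide +kernel
    rw [map_act, hm, act_add, hgt, ← act_mul, e1, act_mul, hgt]
  have hm3 : m = 0 ∨ m = vE0 := by
    rw [act_MV] at hm1 hm2
    have key : ∀ m : V4, gs.1 *ᵥ m = m → gt.1 *ᵥ m = m → m = 0 ∨ m = ![1, 0, 0, 0] := by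
      decide +kernel
    exact key m hm1 hm2
  have him : ∀ g : Gam, act g vE0 = vE0 → act g (i m) = i m := by
    intro g hg
    rw [← map_act]
    rcases hm3 with h | h
    · rw [h, act_zero]
    · rw [h, hg]
  have hz : act gg x = x + i m := by
    rw [hm]
    have := add_self x
    calc act gg x = (x + x) + act gg x := by rw [this, zero_add]
      _ = x + (act gg x + x) := by abel
  have hghc : act ghc x = x := by
    have e1 : x = act gg x + i m := by
      rw [hm]
      have := add_self (act gg x)
      calc x = (act gg x + act gg x) + x := by rw [this, zero_add]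
        _ = act gg x + (act gg x + x) := by abel
    have e2 : act ghc (act gg x) = act gg x := by
      unfold ghc
      rw [act_mul, act_mul, act_inv_act, hx3]
    have e3 : act ghc vE0 = vE0 := by
      unfold ghc
      exact hmul0 _ _ (hmul0 _ _ hgg hgh) (hinv0 _ hgg)
    calc act ghc x = act ghc (act gg x + i m) := by rw [← e1]
      _ = act gg x + i m := by rw [act_add, e2, him ghc e3]
      _ = x := e1.symm
  refine ⟨x, hx1, ?_⟩
  have w1 : gg = gh * gh * ghc * ghc * gh * gh := by
    apply Units.ext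
    decide +kernel
  have w2 : x1 = gs * gh * ghc * gs * ghc := by
    apply Units.ext
    decide +kernel
  have w3 : gq = gs * gh * ghc * gs * gs * gh := by
    apply Units.ext
    decide +kernel
  intro k hk
  fin_cases k
  · exact hgt
  · change act x1 x = x
    rw [w2]
    simp only [act_mul, hx2, hx3, hghc]
  · change act gg x = x
    rw [w1]
    simp only [act_mul, hx3, hghc]
  · exact absurd hk (by decide)
  · change act gq x = x
    rw [w3]
    simp only [act_mul, hx2, hx3, hghc]
  · exact hx2

end lift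

/-! ### the case `a = v` -/

section main
variable {X : Type} [AddCommGroup X] [Module RG X]

theorem act_k_fix {x : X} (hx : ∀ k, st k = true → act (M06.gen k) x = x) :
    act gt (x + act gr x + act (gr ^ 2) x) = x + act gr x + act (gr ^ 2) x ∧
    act x1 (x + act gr x + act (gr ^ 2) x) = x + act gr x + act (gr ^ 2) x ∧
    act gg (x + act gr x + act (gr ^ 2) x) = x + act gr x + act (gr ^ 2) x ∧
    act gs (x + act gr x + act (gr ^ 2) x) = x + act gr x + act (gr ^ 2) x ∧
    act gr (x + act gr x + act (gr ^ 2) x) = x + act gr x + act (gr ^ 2) x := by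
  have a0 : act gt x = x := hx 0 rfl
  have a1 : act x1 x = x := hx 1 rfl
  have a2 : act gg x = x := hx 2 rfl
  have a5 : act gs x = x := hx 5 rfl
  have b1 : act (gt * gr) x = act (gr ^ 2) x :=
    actw hx [0] (by decide) (by apply Units.ext; decide +kernel)
  have b2 : act (gt * gr ^ 2) x = act gr x :=
    actw hx [0] (by decide) (by apply Units.ext; decide +kernel)
  have b3 : act (x1 * gr) x = act gr x :=
    actw hx [0, 1, 0, 1] (by decide) (by apply Units.ext; decide +kernel)
  have b4 : act (x1 * gr ^ 2) x = act (gr ^ 2) x :=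
    actw hx [0, 1, 0] (by decide) (by apply Units.ext; decide +kernel)
  have b5 : act (gg * gr) x = act gr x :=
    actw hx [2] (by decide) (by apply Units.ext; decide +kernel)
  have b6 : act (gg * gr ^ 2) x = act (gr ^ 2) x :=
    actw hx [2] (by decide) (by apply Units.ext; decide +kernel)
  have b7 : act (gs * gr) x = act gr x :=
    actw hx [5] (by decide) (by apply Units.ext; decide +kernel)
  have b8 : act (gs * gr ^ 2) x = act (gr ^ 2) x :=
    actw hx [5] (by decide) (by apply Units.ext; decide +kernel)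
  have b9 : act (gr * gr) x = act (gr ^ 2) x := by rw [pow_two]
  have b10 : act (gr * gr ^ 2) x = x := by
    have : gr * gr ^ 2 = 1 := by
      apply Units.ext
      decide +kernel
    rw [this, act_one]
  refine ⟨?_, ?_, ?_, ?_, ?_⟩
  · rw [act_add, act_add, a0, ← act_mul, ← act_mul, b1, b2]
    abel
  · rw [act_add, act_add, a1, ← act_mul, ← act_mul, b3, b4]
  · rw [act_add, act_add, a2, ← act_mul, ← act_mul, b5, b6]
  · rw [act_add, act_add, a5, ← act_mul, ← act_mul, b7, b8]
  · rw [act_add, act_add, ← act_mul, ← act_mul, b9, b10]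
    abel

/-- the sum over the seven nonzero vectors of `⟨e₀,e₁,e₂⟩` is fixed by the stabiliser -/
theorem act_s_fix {x : X} (hx : ∀ k, st k = true → act (M06.gen k) x = x) {k s : X}
    (hk : k = x + act gr x + act (gr ^ 2) x) (hs : s = k + act gq k + act (gq ^ 2) k) :
    act gr s = s ∧ act gq s = s ∧ act gg s = s := by
  have a2 : act gg x = x := hx 2 rfl
  have a4 : act gq x = x := hx 4 rfl
  have a4' : act (gq ^ 2) x = x := fix_pow a4 2
  have hs' : s = x + (act gr x + act (gr ^ 2) x + (act (gq * gr) x + act (gq * gr ^ 2) x) +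
      (act (gq ^ 2 * gr) x + act (gq ^ 2 * gr ^ 2) x)) := by
    rw [hs, hk]
    simp only [act_add, ← act_mul]
    rw [a4, a4']
    have := add_self x
    calc _ = (x + x) + (x + (act gr x + act (gr ^ 2) x + (act (gq * gr) x + act (gq * gr ^ 2) x) +
      (act (gq ^ 2 * gr) x + act (gq ^ 2 * gr ^ 2) x))) := by abel
      _ = _ := by rw [this, zero_add]
  have r1 : act (gr * gr) x = act (gr ^ 2) x := by rw [pow_two]
  have r2 : act (gr * gr ^ 2) x = x := by
    have : gr * gr ^ 2 = 1 := by
      apply Units.ext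
      decide +kernel
    rw [this, act_one]
  have r3 : act (gr * (gq * gr)) x = act (gq * gr) x :=
    actw hx [0, 4] (by decide) (by apply Units.ext; decide +kernel)
  have r4 : act (gr * (gq * gr ^ 2)) x = act (gq ^ 2 * gr) x :=
    actw hx [4, 1] (by decide) (by apply Units.ext; decide +kernel)
  have r5 : act (gr * (gq ^ 2 * gr)) x = act (gq ^ 2 * gr ^ 2) x :=
    actw hx [4, 0] (by decide) (by apply Units.ext; decide +kernel)
  have r6 : act (gr * (gq ^ 2 * gr ^ 2)) x = act (gq * gr ^ 2) x :=
    actw hx [0, 1, 0, 4] (by decide) (by apply Units.ext; decide +kernel)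
  have g1 : act (gg * gr) x = act gr x :=
    actw hx [2] (by decide) (by apply Units.ext; decide +kernel)
  have g2 : act (gg * gr ^ 2) x = act (gr ^ 2) x :=
    actw hx [2] (by decide) (by apply Units.ext; decide +kernel)
  have g3' : act (gg * (gq * gr)) x = act (gq * gr) x :=
    actw hx [0, 5, 5, 1, 0, 1, 5] (by decide) (by apply Units.ext; decide +kernel)
  have g4 : act (gg * (gq * gr ^ 2)) x = act (gq * gr ^ 2) x :=
    actw hx [0, 1, 2, 1, 0, 2] (by decide) (by apply Units.ext; decide +kernel)
  have g5 : act (gg * (gq ^ 2 * gr)) x = act (gq ^ 2 * gr) x :=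
    actw hx [0, 5, 2, 1, 0, 1, 5] (by decide) (by apply Units.ext; decide +kernel)
  have g6 : act (gg * (gq ^ 2 * gr ^ 2)) x = act (gq ^ 2 * gr ^ 2) x :=
    actw hx [0, 1, 2, 1, 0] (by decide) (by apply Units.ext; decide +kernel)
  refine ⟨?_, ?_, ?_⟩
  · rw [hs']
    simp only [act_add, ← act_mul]
    rw [r1, r2, r3, r4, r5, r6]
    abel
  · have q3 : gq * gq ^ 2 = 1 := by
      apply Units.ext
      decide +kernel
    rw [hs]
    simp only [act_add, ← act_mul]
    rw [q3, act_one, ← pow_two]
    abel
  · rw [hs']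
    simp only [act_add, ← act_mul]
    rw [a2, g1, g2, g3', g4, g5, g6]

/-- M6 for `a = v`: the surjection splits -/
theorem m6v [Finite X] (h1 : S_M4) (h2 : S_SIM) (h3 : S_END) (h4 : S_HV010) (hC : S_COCV)
    (q : X →ₗ[RG] MV) (i : MV →ₗ[RG] X) (hq : Function.Surjective q)
    (hi : Function.Injective i) (hqi : ∀ m, q (i m) = 0)
    (hK : ∀ x, q x = 0 → (∀ f : LinearMap.ker q →ₗ[RG] ML,
      (∀ m (h : q (i m) = 0), f ⟨i m, h⟩ = 0) → ∀ h : q x = 0, f ⟨x, h⟩ = 0) → ∃ m, i m = x)
    (hS : ∀ P : Submodule RG X, P ≤ LinearMap.ker q → P ≠ ⊥ → LinearMap.range i ≤ P) :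
    ∃ f : MV →ₗ[RG] X, ∀ m, q (f m) = m := by
  classical
  set N2 := LinearMap.range i with hN2
  have hle : N2 ≤ LinearMap.ker q := by
    rintro _ ⟨m, rfl⟩
    exact hqi m
  let qb : (X ⧸ N2) →ₗ[RG] MV := N2.liftQ q hle
  have hqb : ∀ x, qb (N2.mkQ x) = q x := fun x => rfl
  have hqbs : Function.Surjective qb := by
    intro m
    obtain ⟨x, hx⟩ := hq m
    exact ⟨N2.mkQ x, hx⟩
  have hHg : Hg ML (LinearMap.ker qb) := by
    rintro ⟨y, hy⟩ hf
    obtain ⟨x, rfl⟩ := N2.mkQ_surjective y
    have hx0 : q x = 0 := hy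
    -- the projection `ker q → ker qb`
    let pr : LinearMap.ker q →ₗ[RG] LinearMap.ker qb :=
      (N2.mkQ.comp (LinearMap.ker q).subtype).codRestrict (LinearMap.ker qb) fun z => z.2
    have hprs : Function.Surjective pr := by
      rintro ⟨z, hz⟩
      obtain ⟨z', rfl⟩ := N2.mkQ_surjective z
      exact ⟨⟨z', hz⟩, rfl⟩
    have hprk : ∀ z : LinearMap.ker q, pr z = 0 → ∃ m, i m = (z : X) := by
      intro z hz
      have h5 : N2.mkQ (z : X) = 0 := congrArg Subtype.val hz
      rw [← LinearMap.mem_ker, Submodule.ker_mkQ] at h5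
      exact h5
    have hm : ∃ m, i m = x := by
      refine hK x hx0 fun f hfm h => ?_
      have hker : LinearMap.ker pr ≤ LinearMap.ker f := by
        intro z hz
        obtain ⟨m, hm⟩ := hprk z hz
        have h6 := hfm m (hqi m)
        have h7 : (⟨i m, hqi m⟩ : LinearMap.ker q) = z := Subtype.ext hm
        rw [h7] at h6
        exact h6
      let f' : LinearMap.ker qb →ₗ[RG] ML :=
        ((LinearMap.ker pr).liftQ f hker).comp (pr.quotKerEquivOfSurjective hprs).symm.toLinearMap
      have h8 := hf f'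
      have h9 : (pr.quotKerEquivOfSurjective hprs).symm (pr ⟨x, h⟩) =
          (LinearMap.ker pr).mkQ ⟨x, h⟩ := by
        rw [LinearEquiv.symm_apply_eq]
        rfl
      have h10 : f' (pr ⟨x, h⟩) = f ⟨x, h⟩ := by
        change ((LinearMap.ker pr).liftQ f hker)
          ((pr.quotKerEquivOfSurjective hprs).symm (pr ⟨x, h⟩)) = _
        rw [h9]
        rfl
      rw [← h10]
      exact h8
    obtain ⟨m, hm⟩ := hm
    apply Subtype.ext
    change N2.mkQ x = 0
    rw [← LinearMap.mem_ker, Submodule.ker_mkQ]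
    exact ⟨m, hm⟩
  have : Finite (X ⧸ N2) := Finite.of_surjective N2.mkQ N2.mkQ_surjective
  obtain ⟨sec, κ, hs1, hs2, hs3, hs4⟩ := h1 .v mvv Std3.vv (X ⧸ N2) qb hqbs hHg
  obtain ⟨x0, hx0⟩ := N2.mkQ_surjective (sec vE0)
  obtain ⟨x, hx, hxf⟩ := exists_lift hC i hi x0 (by
    intro g hg
    change act g (N2.mkQ x0) = N2.mkQ x0
    rw [hx0, ← hs2, hg])
  change N2.mkQ x = N2.mkQ x0 at hx
  rw [hx0] at hx
  have hqx : q x = vE0 := by
    rw [← hqb, hx, hs1]
  have hgr1 : act gr vE0 = vE1 := by
    rw [act_MV]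
    have : gr.1 *ᵥ (![1, 0, 0, 0] : V4) = ![0, 1, 0, 0] := by decide +kernel
    exact this
  have hgr2 : act (gr ^ 2) vE0 = vE0 + vE1 := by
    rw [act_MV]
    have : (gr ^ 2).1 *ᵥ (![1, 0, 0, 0] : V4) = ![1, 0, 0, 0] + ![0, 1, 0, 0] := by
      decide +kernel
    exact this
  set k : X := x + act gr x + act (gr ^ 2) x with hk
  have hkπ : N2.mkQ k = κ lE01 := by
    rw [hk, map_add, map_add, mkQ_act, mkQ_act, hx, ← hs2, ← hs2, hgr1, hgr2, hs4]
    have e1 : mvv vE0 vE1 = lE01 := by
      have : wdg ![1, 0, 0, 0] ![0, 1, 0, 0] = ![1, 0, 0, 0, 0, 0] := by decide +kernel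
      exact this
    rw [e1]
    have e2 := add_self (sec vE0)
    have e3 := add_self (sec vE1)
    calc sec vE0 + sec vE1 + (sec vE0 + sec vE1 + κ lE01)
        = (sec vE0 + sec vE0) + (sec vE1 + sec vE1) + κ lE01 := by abel
      _ = κ lE01 := by rw [e2, e3, zero_add, zero_add]
  have hkq : q k = 0 := by
    rw [hk, map_add, map_add, map_act, map_act, hqx, hgr1, hgr2]
    exact add_self _
  obtain ⟨k0, k1, k2, k5, k3⟩ := act_k_fix hxf
  rw [← hk] at k0 k1 k2 k5 k3
  by_cases hk0 : k = 0
  · -- the section is additive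
    have hHV : HV ![true, false, false] x := by
      refine ⟨?_, ?_, ?_, ?_⟩
      · rintro rfl
        rw [map_zero] at hqx
        exact absurd (congrFun hqx 0) (by decide)
      · intro j
        fin_cases j
        · exact hxf 0 rfl
        · exact hxf 1 rfl
        · exact hxf 2 rfl
      · intro j hj
        fin_cases j
        · exact hk0
        · exact absurd hj (by decide)
        · exact absurd hj (by decide)
      · intro j hj
        fin_cases j
        · exact absurd hj (by decide)
        · exact hxf 4 rfl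
        · exact hxf 5 rfl
    obtain ⟨f, hf⟩ := bHV100 X x hHV
    refine ⟨f, ?_⟩
    rcases h3 .v .v (q.comp f) with h | ⟨_, h⟩
    · exfalso
      have h5 := h vE0
      change q (f vE0) = 0 at h5
      rw [hf, hqx] at h5
      exact absurd (congrFun h5 0) (by decide)
    · intro m
      exact h m
  · exfalso
    -- the sum over the pencil
    set s : X := k + act gq k + act (gq ^ 2) k with hs
    obtain ⟨s1, s2, s3⟩ := act_s_fix hxf hk hs
    have hsπ : N2.mkQ s = 0 := by
      rw [hs, map_add, map_add, mkQ_act, mkQ_act, hkπ, ← map_act, ← map_act, ← map_add,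
        ← map_add]
      have e : lE01 + act gq lE01 + act (gq ^ 2) lE01 = 0 := by
        rw [act_ML, act_ML]
        have : (![1, 0, 0, 0, 0, 0] : V6) + actL gq.1 ![1, 0, 0, 0, 0, 0] +
            actL (gq ^ 2).1 ![1, 0, 0, 0, 0, 0] = 0 := by decide +kernel
        exact this
      rw [e, map_zero]
    rw [← LinearMap.mem_ker, Submodule.ker_mkQ] at hsπ
    obtain ⟨m, hm⟩ := hsπ
    have hm0 : m = 0 := by
      have m1 : act gr m = m := hi (by rw [map_act, hm, s1])
      have m2 : act gq m = m := hi (by rw [map_act, hm, s2])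
      have m3 : act gg m = m := hi (by rw [map_act, hm, s3])
      rw [act_MV] at m1 m2 m3
      have key : ∀ m : V4, gr.1 *ᵥ m = m → gq.1 *ᵥ m = m → gg.1 *ᵥ m = m → m = 0 := by
        decide +kernel
      exact key m m1 m2 m3
    have hs0 : s = 0 := by rw [← hm, hm0, map_zero]
    let w : LinearMap.ker q := ⟨k, hkq⟩
    have hHV : HV ![false, true, false] w := by
      refine ⟨?_, ?_, ?_, ?_⟩
      · intro h
        exact hk0 (congrArg Subtype.val h)
      · intro j
        apply Subtype.ext
        rw [act_coe]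
        fin_cases j
        · exact k0
        · exact k1
        · exact k2
      · intro j hj
        fin_cases j
        · exact absurd hj (by decide)
        · apply Subtype.ext
          rw [Submodule.coe_add, Submodule.coe_add, act_coe, act_coe]
          exact hs0
        · exact absurd hj (by decide)
      · intro j hj
        apply Subtype.ext
        rw [act_coe]
        fin_cases j
        · exact k3
        · exact absurd hj (by decide)
        · exact k5
    obtain ⟨f, hf⟩ := h4 (LinearMap.ker q) w hHV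
    have hfw : f lE01 ≠ 0 := by
      rw [hf]
      exact hHV.ne
    have hML : IsSimpleModule RG ML := h2 .l
    have hfinj : Function.Injective f := by
      rw [← LinearMap.ker_eq_bot]
      rcases eq_bot_or_eq_top (LinearMap.ker f) with h | h
      · exact h
      · exfalso
        apply hfw
        rw [← LinearMap.mem_ker, h]
        exact Submodule.mem_top
    let F : ML →ₗ[RG] X := (LinearMap.ker q).subtype.comp f
    have hF : Function.Injective F := Subtype.val_injective.comp hfinj
    have hrange : LinearMap.range i ≤ LinearMap.range F := by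
      refine hS (LinearMap.range F) ?_ ?_
      · rintro _ ⟨l, rfl⟩
        exact (f l).2
      · intro h
        apply hfw
        apply Subtype.ext
        have h5 : F lE01 ∈ LinearMap.range F := ⟨_, rfl⟩
        rw [h, Submodule.mem_bot] at h5
        exact h5
    let i' : MV →ₗ[RG] LinearMap.range F :=
      i.codRestrict (LinearMap.range F) fun m => hrange ⟨m, rfl⟩
    let g : MV →ₗ[RG] ML := (LinearEquiv.ofInjective F hF).symm.toLinearMap.comp i'
    have hg : Function.Injective g := by
      refine (LinearEquiv.ofInjective F hF).symm.injective.comp ?_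
      intro a b hab
      exact hi (congrArg Subtype.val hab)
    rcases h3 .v .l g with h | ⟨h, -⟩
    · have h5 : g vE0 = g 0 := by
        rw [map_zero]
        exact h vE0
      have h6 := hg h5
      exact absurd (congrFun h6 0) (by decide)
    · exact absurd h (by decide)

end main

/-! ### the twist -/

/-- the identity -/
def toV (m : MD) : MV := m
/-- the identity -/
def toD (m : MV) : MD := m
/-- the star on `L` -/
def hsM (l : ML) : ML := hs l

theorem toV_add (a b : MD) : toV (a + b) = toV a + toV b := rfl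
theorem toD_add (a b : MV) : toD (a + b) = toD a + toD b := rfl
theorem toV_zero : toV 0 = 0 := rfl
theorem toD_zero : toD 0 = 0 := rfl
theorem toD_toV (m : MD) : toD (toV m) = m := rfl
theorem toV_toD (m : MV) : toV (toD m) = m := rfl
theorem hsM_add (a b : ML) : hsM (a + b) = hsM a + hsM b := hs_add a b
theorem hsM_zero : hsM 0 = 0 := hs_zero
theorem hsM_hsM (l : ML) : hsM (hsM l) = l := hs_hs l

theorem act_toV (g : Gam) (m : MD) : act g (toV m) = toV (act (sig g) m) := by
  rw [act_MV, act_MD]
  have e : (((sig g)⁻¹).1)ᵀ = g.1 := by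
    change (g.1ᵀ)ᵀ = g.1
    exact Matrix.transpose_transpose _
  rw [e]
  rfl

theorem act_toD (g : Gam) (m : MV) : act g (toD m) = toD (act (sig g) m) := by
  have h := act_toV (sig g) (toD m)
  rw [sig_sig, toV_toD] at h
  rw [h, toD_toV]

theorem act_hsM (g : Gam) (l : ML) : act g (hsM l) = hsM (act (sig g) l) := by
  rw [act_ML, act_ML]
  exact (hs_actL (sig g).1 ((sig g)⁻¹).1 (gam_mul_inv (sig g)) l).symm

section twist
set_option linter.unusedSectionVars false
variable {X : Type} [AddCommGroup X] [Module RG X]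

/-- the identity -/
def tx (x : X) : Tw X := x
/-- the identity -/
def ux (x : Tw X) : X := x

theorem tx_add (a b : X) : tx (a + b) = tx a + tx b := rfl
theorem ux_add (a b : Tw X) : ux (a + b) = ux a + ux b := rfl
theorem tx_zero : tx (0 : X) = 0 := rfl
theorem ux_zero : ux (0 : Tw X) = 0 := rfl
theorem tx_ux (x : Tw X) : tx (ux x) = x := rfl
theorem ux_tx (x : X) : ux (tx x) = x := rfl

theorem ux_act (g : Gam) (x : Tw X) : ux (act g x) = act (sig g) (ux x) := act_Tw g x

theorem tx_act (g : Gam) (x : X) : tx (act g x) = act (sig g) (tx x) := by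
  have h := ux_act (sig g) (tx x)
  rw [sig_sig, ux_tx] at h
  rw [← h, tx_ux]

/-- a map to `V*` becomes a map to `V` -/
noncomputable def twq (q : X →ₗ[RG] MD) : Tw X →ₗ[RG] MV :=
  mkLin
    { toFun := fun x => toV (q (ux x))
      map_zero' := by rw [ux_zero, map_zero, toV_zero]
      map_add' := fun a b => by rw [ux_add, map_add, toV_add] } (by
      intro g x
      change toV (q (ux (act g x))) = act g (toV (q (ux x)))
      rw [ux_act, map_act, act_toV])

theorem twq_apply (q : X →ₗ[RG] MD) (x : Tw X) : twq q x = toV (q (ux x)) := rfl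

/-- a map from `V*` becomes a map from `V` -/
noncomputable def twi (i : MD →ₗ[RG] X) : MV →ₗ[RG] Tw X :=
  mkLin
    { toFun := fun m => tx (i (toD m))
      map_zero' := by rw [toD_zero, map_zero, tx_zero]
      map_add' := fun a b => by rw [toD_add, map_add, tx_add] } (by
      intro g m
      change tx (i (toD (act g m))) = act g (tx (i (toD m)))
      have h := act_toD (sig g) m
      rw [sig_sig] at h
      rw [← h, map_act, tx_act, sig_sig])

theorem twi_apply (i : MD →ₗ[RG] X) (m : MV) : twi i m = tx (i (toD m)) := rfl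

/-- back -/
noncomputable def twb (f : MV →ₗ[RG] Tw X) : MD →ₗ[RG] X :=
  mkLin
    { toFun := fun m => ux (f (toV m))
      map_zero' := by rw [toV_zero, map_zero, ux_zero]
      map_add' := fun a b => by rw [toV_add, map_add, ux_add] } (by
      intro g m
      change ux (f (toV (act g m))) = act g (ux (f (toV m)))
      have h := act_toV (sig g) m
      rw [sig_sig] at h
      rw [← h, map_act, ux_act, sig_sig])

theorem twb_apply (f : MV →ₗ[RG] Tw X) (m : MD) : twb f m = ux (f (toV m)) := rfl

theorem mem_ker_twq (q : X →ₗ[RG] MD) (x : Tw X) :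
    x ∈ LinearMap.ker (twq q) ↔ ux x ∈ LinearMap.ker q := by
  rw [LinearMap.mem_ker, LinearMap.mem_ker, twq_apply]
  constructor
  · intro h
    rw [← toD_toV (q (ux x)), h, toD_zero]
  · intro h
    rw [h, toV_zero]

/-- homomorphisms to `L` are twisted by the star -/
noncomputable def twf (q : X →ₗ[RG] MD) (f : LinearMap.ker q →ₗ[RG] ML) :
    LinearMap.ker (twq q) →ₗ[RG] ML :=
  mkLin
    { toFun := fun z => hsM (f ⟨ux z.1, (mem_ker_twq q z.1).1 z.2⟩)
      map_zero' := by
        have e : (⟨ux (0 : LinearMap.ker (twq q)).1, (mem_ker_twq q _).1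
          (0 : LinearMap.ker (twq q)).2⟩ : LinearMap.ker q) = 0 := rfl
        rw [e, map_zero, hsM_zero]
      map_add' := by
        intro a b
        have e : (⟨ux (a + b).1, (mem_ker_twq q _).1 (a + b).2⟩ : LinearMap.ker q) =
          ⟨ux a.1, (mem_ker_twq q a.1).1 a.2⟩ + ⟨ux b.1, (mem_ker_twq q b.1).1 b.2⟩ := rfl
        rw [e, map_add, hsM_add] } (by
      intro g z
      change hsM (f ⟨ux (act g z).1, (mem_ker_twq q _).1 (act g z).2⟩) =
        act g (hsM (f ⟨ux z.1, (mem_ker_twq q z.1).1 z.2⟩))
      have e0 : (⟨ux (act g z).1, (mem_ker_twq q _).1 (act g z).2⟩ : LinearMap.ker q) =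
          act (sig g) (⟨ux z.1, (mem_ker_twq q z.1).1 z.2⟩ : LinearMap.ker q) := by
        apply Subtype.ext
        change ux (act g z.1) = act (sig g) (ux z.1)
        exact ux_act g z.1
      rw [e0, map_act, act_hsM])

theorem twf_apply (q : X →ₗ[RG] MD) (f : LinearMap.ker q →ₗ[RG] ML)
    (z : LinearMap.ker (twq q)) :
    twf q f z = hsM (f ⟨ux z.1, (mem_ker_twq q z.1).1 z.2⟩) := rfl

/-- submodules -/
noncomputable def tws (P' : Submodule RG (Tw X)) : Submodule RG X :=
  mkSub
    { carrier := {x : X | tx x ∈ P'}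
      zero_mem' := P'.zero_mem
      add_mem' := fun {a b} ha hb => by
        change tx (a + b) ∈ P'
        rw [tx_add]
        exact P'.add_mem ha hb
      neg_mem' := fun {a} ha => by
        change tx (-a) ∈ P'
        exact P'.neg_mem ha } (by
      intro g x hx
      change tx (act g x) ∈ P'
      rw [tx_act]
      exact act_mem _ hx)

theorem mem_tws (P' : Submodule RG (Tw X)) (x : X) : x ∈ tws P' ↔ tx x ∈ P' := Iff.rfl

theorem m6d [Finite X] (h1 : S_M4) (h2 : S_SIM) (h3 : S_END) (h4 : S_HV010) (hC : S_COCV)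
    (q : X →ₗ[RG] MD) (i : MD →ₗ[RG] X) (hq : Function.Surjective q)
    (hi : Function.Injective i) (hqi : ∀ m, q (i m) = 0)
    (hK : ∀ x, q x = 0 → (∀ f : LinearMap.ker q →ₗ[RG] ML,
      (∀ m (h : q (i m) = 0), f ⟨i m, h⟩ = 0) → ∀ h : q x = 0, f ⟨x, h⟩ = 0) → ∃ m, i m = x)
    (hS : ∀ P : Submodule RG X, P ≤ LinearMap.ker q → P ≠ ⊥ → LinearMap.range i ≤ P) :
    ∃ f : MD →ₗ[RG] X, ∀ m, q (f m) = m := by
  have hfin : Finite (Tw X) := ‹Finite X›
  have a1 : Function.Surjective (twq q) := by
    intro m
    obtain ⟨x, hx⟩ := hq (toD m)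
    refine ⟨tx x, ?_⟩
    rw [twq_apply, ux_tx, hx, toV_toD]
  have a2 : Function.Injective (twi i) := by
    intro a b hab
    rw [twi_apply, twi_apply] at hab
    have h5 := congrArg ux hab
    rw [ux_tx, ux_tx] at h5
    have h6 := congrArg toV (hi h5)
    rwa [toV_toD, toV_toD] at h6
  have a3 : ∀ m, twq q (twi i m) = 0 := by
    intro m
    rw [twi_apply, twq_apply, ux_tx, hqi, toV_zero]
  have a4 : ∀ x, twq q x = 0 → (∀ f : LinearMap.ker (twq q) →ₗ[RG] ML,
      (∀ m (h : twq q (twi i m) = 0), f ⟨twi i m, h⟩ = 0) → ∀ h : twq q x = 0, f ⟨x, h⟩ = 0) →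
      ∃ m, twi i m = x := by
    intro x hx hall
    have hx' : q (ux x) = 0 := (mem_ker_twq q x).1 hx
    obtain ⟨m, hm⟩ := hK (ux x) hx' (by
      intro f hfm h
      have h5 : twf q f ⟨x, hx⟩ = 0 := by
        refine hall (twf q f) ?_ hx
        intro m hm
        rw [twf_apply]
        have e : (⟨ux (⟨twi i m, hm⟩ : LinearMap.ker (twq q)).1, (mem_ker_twq q _).1 hm⟩ :
          LinearMap.ker q) = ⟨i (toD m), hqi _⟩ := Subtype.ext rfl
        rw [e, hfm (toD m) (hqi _), hsM_zero]
      rw [twf_apply] at h5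
      have h6 := congrArg hsM h5
      rw [hsM_hsM, hsM_zero] at h6
      exact h6)
    refine ⟨toV m, ?_⟩
    rw [twi_apply, toD_toV, hm, tx_ux]
  have a5 : ∀ P : Submodule RG (Tw X), P ≤ LinearMap.ker (twq q) → P ≠ ⊥ →
      LinearMap.range (twi i) ≤ P := by
    intro P' hP hP0
    have h5 : LinearMap.range i ≤ tws P' := by
      refine hS (tws P') ?_ ?_
      · intro x hx
        rw [mem_tws] at hx
        exact (mem_ker_twq q (tx x)).1 (hP hx)
      · intro h
        apply hP0
        rw [eq_bot_iff]
        intro x hx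
        have h6 : ux x ∈ tws P' := by
          rw [mem_tws, tx_ux]
          exact hx
        rw [h, Submodule.mem_bot] at h6
        rw [Submodule.mem_bot, ← tx_ux x, h6, tx_zero]
    rintro _ ⟨m, rfl⟩
    have h6 : i (toD m) ∈ tws P' := h5 ⟨toD m, rfl⟩
    rw [mem_tws] at h6
    rw [twi_apply]
    exact h6
  obtain ⟨f, hf⟩ := m6v (X := Tw X) h1 h2 h3 h4 hC (twq q) (twi i) a1 a2 a3 a4 a5
  refine ⟨twb f, fun m => ?_⟩
  have h5 := hf (toV m)
  rw [twq_apply] at h5
  have h6 := congrArg toD h5
  rw [toD_toV, toD_toV] at h6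
  rw [twb_apply]
  exact h6

end twist

theorem of_split {M X : Type} [AddCommGroup M] [Module RG M] [AddCommGroup X] [Module RG X]
    (q : X →ₗ[RG] M) (i : M →ₗ[RG] X) (hqi : ∀ m, q (i m) = 0)
    (h : ∃ f : M →ₗ[RG] X, ∀ m, q (f m) = m) :
    ∃ P : Submodule RG X, LinearMap.range i ≤ P ∧ P ⊔ LinearMap.ker q = ⊤ ∧
      P ⊓ LinearMap.ker q = LinearMap.range i := by
  obtain ⟨f, hf⟩ := h
  refine ⟨LinearMap.range f ⊔ LinearMap.range i, le_sup_right, ?_, ?_⟩
  · rw [eq_top_iff]
    intro y _
    rw [Submodule.mem_sup]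
    refine ⟨f (q y), Submodule.mem_sup_left ⟨_, rfl⟩, y - f (q y), ?_, by abel⟩
    rw [LinearMap.mem_ker, map_sub, hf, sub_self]
  · apply le_antisymm
    · rintro y ⟨hy, hy0⟩
      obtain ⟨_, ⟨a, rfl⟩, _, ⟨b, rfl⟩, rfl⟩ := Submodule.mem_sup.1 hy
      have h1 : q (f a + i b) = 0 := hy0
      rw [map_add, hf, hqi, add_zero] at h1
      rw [h1, map_zero, zero_add]
      exact ⟨b, rfl⟩
    · rintro _ ⟨m, rfl⟩
      exact ⟨Submodule.mem_sup_right ⟨m, rfl⟩, hqi m⟩

end M15

/-- M15 (uses also `S_COCV`) -/
theorem bM6 (h1 : S_M4) (h2 : S_SIM) (h3 : S_END) (h4 : S_HV010) (hC : S_COCV) : S_M6 := by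
  intro a ha X _ _ _ q i hq hi hqi hK hS
  cases a with
  | v => exact M15.of_split q i hqi (M15.m6v h1 h2 h3 h4 hC q i hq hi hqi hK hS)
  | d => exact M15.of_split q i hqi (M15.m6d h1 h2 h3 h4 hC q i hq hi hqi hK hS)
  | l => exact absurd rfl ha

end Pool.Agent.A8
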